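import Pool.Agent.H200C.Stm2

/-! # Project CH (helper200): job BOXB -/

set_option autoImplicit false

namespace Pool.Agent.Q222.CH

open Finset Polynomial Pool.Agent.TH176.Nag Pool.Agent.TH603.Sur Pool.Agent.TH2.NU Pool.Agent.TH641.UM
open Pool.Agent.Y205.FW Pool.Agent.Y205.MD Pool.Agent.H200W Pool.Agent.H200P Pool.Agent.H200C

theorem In.mono {R : Type} [CommRing R] {S S' : Set (ℕ × ℕ)} (h : S ⊆ S') {f : R[X][X]}
    (hf : In S f) : In S' f := fun a b hab => h (hf a b hab)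

theorem EB.mono {W M : Multiset ℕ} {S S' : Set (ℕ × ℕ)} (hE : EB W M S') (h : S ⊆ S') :
    EB W M S := by
  obtain ⟨K, i1, i2, ξ, x, y, hI⟩ := hE
  exact ⟨K, i1, i2, ξ, x, y, fun f hf hv => hI f (In.mono h hf) hv⟩

theorem SB.mono {W M : Multiset ℕ} {S S' : Set (ℕ × ℕ)} (hE : SB W M S) (h : S ⊆ S') :
    SB W M S' := by
  obtain ⟨T, h1, h2, h3⟩ := hE
  exact ⟨T, h1.trans h, h2, h3⟩

theorem EC.mono {e : ℕ} {W M : Multiset ℕ} {S S' : Set (ℕ × ℕ)} (hE : EC e W M S') (h : S ⊆ S') :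
    EC e W M S := by
  obtain ⟨K, i1, i2, p, ξ, x, y, h0, hI⟩ := hE
  exact ⟨K, i1, i2, p, ξ, x, y, h0, fun f hf hv => hI f (In.mono h hf) hv⟩

theorem SC.mono {e : ℕ} {W M : Multiset ℕ} {S S' : Set (ℕ × ℕ)} (hE : SC e W M S) (h : S ⊆ S') :
    SC e W M S' := by
  obtain ⟨T, h1, h2, h3⟩ := hE
  exact ⟨T, h1.trans h, h2, h3⟩

theorem BX_finite (c H : ℕ) : (BX c H).Finite := by
  refine Set.Finite.subset (Finset.finite_toSet (range c ×ˢ range H)) ?_
  intro p hp
  rw [Finset.mem_coe, Finset.mem_product, Finset.mem_range, Finset.mem_range]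
  exact hp

/-- the part of the box above the corner -/
def Zb (v c H : ℕ) : Set (ℤ × ℤ) :=
  {p | 0 ≤ p.1 ∧ 0 ≤ p.2 ∧ p.1 < c ∧ p.2 < H ∧ (v : ℤ) ≤ p.1 + p.2}

theorem Zb_qd (v c H : ℕ) : qd (Zb v c H) = {p | p ∈ BX c H ∧ v ≤ p.1 + p.2} := by
  ext p
  simp only [qd, Zb, BX, Set.mem_ofPred_eq]
  omega

/-- job BOXB -/
theorem boxB : S_BoxB := by
  intro hBlock hTor
  constructor
  · intro h u v c H h1 h5 hu0 hu hv hc
    have hgood : GoodS h u (ZO ((v : ℝ) + 1) ((c : ℝ) + 1) ((c : ℝ) + H + 2) 0 ((H : ℝ) + 1))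
        (2 * (c : ℝ) * H - (v : ℝ) ^ 2) := by
      have hv' : (v : ℝ) ≤ H := by exact_mod_cast hv
      have hc' : (v : ℝ) + 13 * H ≤ c := by exact_mod_cast hc
      have hv0 : (0 : ℝ) ≤ v := by positivity
      have hH0 : (0 : ℝ) ≤ H := by positivity
      have hr0 : rl ((v : ℝ) + 1) ((c : ℝ) + 1) ((c : ℝ) + H + 2) 0 = c - v := by
        unfold rl
        rw [min_eq_left (by linarith), max_eq_right (by linarith)]
        ring
      have hr1 : rl ((v : ℝ) + 1) ((c : ℝ) + 1) ((c : ℝ) + H + 2) ((H : ℝ) + 1) = c + 1 := by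
        unfold rl
        rw [min_eq_left (by linarith), max_eq_left (by linarith)]
        ring
      have hg := p_stackS (h := h) (u := u) (G := H) (M := (v : ℝ) + 1) (q := (c : ℝ) + 1)
        (d := (c : ℝ) + H + 2) (y0 := 0) (y1 := (H : ℝ) + 1) h1 h5 hu0 hu (by linarith)
        (by rw [hr0]; linarith) (by rw [hr1]; linarith)
      refine Q275.WR.goodS_mono hg ?_
      unfold ga
      rw [max_eq_left (by linarith : ((H : ℝ) + 1) - ((c : ℝ) + H + 2 - (c + 1)) ≤ 0),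
        max_eq_left (by linarith : (v : ℝ) + 1 - ((H : ℝ) + 1) ≤ 0),
        max_eq_left (by linarith : (0 : ℝ) - ((c : ℝ) + H + 2 - (c + 1)) ≤ 0),
        max_eq_right (by linarith : (0 : ℝ) ≤ (v : ℝ) + 1 - 0)]
      nlinarith
    have hstep : ∀ M : Multiset ℕ,
        SurM M (ZO ((v : ℝ) + 1) ((c : ℝ) + 1) ((c : ℝ) + H + 2) 0 ((H : ℝ) + 1)) →
        SB {v} M (BX c H) := by
      intro M hM
      have h2 : SurM M (Zb v c H) := by
        refine Sur.shift hM 1 1 ?_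
        rintro m ⟨a1, a2, a3, a4, a5, a6⟩
        have b1 : (0 : ℤ) < m.2 := by exact_mod_cast a1
        have b2 : m.2 < (H : ℤ) + 1 := by exact_mod_cast a2
        have b4 : (v : ℤ) + 1 - m.2 < m.1 := by exact_mod_cast a4
        have b5 : m.1 < (c : ℤ) + 1 := by exact_mod_cast a5
        refine ⟨?_, ?_, ?_, ?_, ?_⟩ <;> simp only <;> omega
      have h3 := (hTor.2.1 M (Zb v c H) (fun m hm => ⟨hm.1, hm.2.1⟩) h2).1
      rw [Zb_qd] at h3
      have h4 := hBlock.2 v 0 M (BX c H) (by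
        intro p hp
        exact ⟨by omega, by omega⟩) h3
      rwa [add_zero] at h4
    exact ⟨hstep 0 (H200P.surM_zero _), fun L hL hs => hstep _ (hgood L hL hs)⟩
  · intro h u v c H h1 h5 hu0 hu hv hc
    have hgood : GoodE h u (ZC (v : ℝ) (c : ℝ) ((c : ℝ) + H) 0 (H : ℝ))
        (2 * (c : ℝ) * H - (v : ℝ) ^ 2) := by
      have hv' : (v : ℝ) ≤ H := by exact_mod_cast hv
      have hc' : (v : ℝ) + 13 * H ≤ c := by exact_mod_cast hc
      have hv0 : (0 : ℝ) ≤ v := by positivity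
      have hH0 : (0 : ℝ) ≤ H := by positivity
      have hr0 : rl (v : ℝ) (c : ℝ) ((c : ℝ) + H) 0 = c - v := by
        unfold rl
        rw [min_eq_left (by linarith), max_eq_right (by linarith)]
        ring
      have hr1 : rl (v : ℝ) (c : ℝ) ((c : ℝ) + H) (H : ℝ) = c := by
        unfold rl
        rw [min_eq_left (by linarith), max_eq_left (by linarith)]
        ring
      have hg := p_stackE (h := h) (u := u) (G := H) (M := (v : ℝ)) (q := (c : ℝ))
        (d := (c : ℝ) + H) (y0 := 0) (y1 := (H : ℝ)) h1 h5 hu0 hu (by linarith)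
        (by rw [hr0]; linarith) (by rw [hr1]; linarith)
      refine Q275.WR.goodE_mono hg ?_
      unfold ga
      rw [max_eq_left (by linarith : (H : ℝ) - ((c : ℝ) + H - c) ≤ 0),
        max_eq_left (by linarith : (v : ℝ) - (H : ℝ) ≤ 0),
        max_eq_left (by linarith : (0 : ℝ) - ((c : ℝ) + H - c) ≤ 0),
        max_eq_right (by linarith : (0 : ℝ) ≤ (v : ℝ) - 0)]
      nlinarith
    intro L hL hs
    have h2 := hgood L hL hs
    have h3 := EmpM.mono_set h2 (S := Zb v c H) (by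
      rintro m ⟨a1, a2, a3, a4, a5⟩
      have b1 : (0 : ℝ) ≤ m.1 := by exact_mod_cast a1
      have b2 : (0 : ℝ) ≤ m.2 := by exact_mod_cast a2
      have b3 : (m.1 : ℝ) ≤ c := by exact_mod_cast a3.le
      have b4 : (m.2 : ℝ) ≤ H := by exact_mod_cast a4.le
      have b5 : (v : ℝ) ≤ m.1 + m.2 := by exact_mod_cast a5
      exact ⟨b2, b4, a1, by linarith, b3, by linarith⟩)
    have h4 := (hTor.1 _ (Zb v c H) h3).1
    rw [Zb_qd] at h4
    have h5 := hBlock.1 v 0 _ (BX c H) (BX_finite c H) h4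
    rwa [add_zero] at h5

end Pool.Agent.Q222.CH
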