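import Pool.Agent.Q222.CH.StripB

/-! # Project CH (helper200): job QUAD -/

set_option autoImplicit false

namespace Pool.Agent.Q222.CH

open Finset Polynomial Pool.Agent.TH176.Nag Pool.Agent.TH603.Sur Pool.Agent.TH2.NU Pool.Agent.TH641.UM
open Pool.Agent.Y205.FW Pool.Agent.Y205.MD Pool.Agent.H200W Pool.Agent.H200P Pool.Agent.H200C

theorem mem_HX0 (D : ℕ) (p : ℤ × ℤ) :
    p ∈ (↑(HX 0 0 0 D) : Set (ℤ × ℤ)) ↔ 0 ≤ p.1 ∧ 0 ≤ p.2 ∧ p.1 + p.2 ≤ D := by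
  rw [Finset.mem_coe, HX, Finset.mem_filter, Finset.mem_product, Finset.mem_Icc, Finset.mem_Icc]
  push_cast
  constructor
  · rintro ⟨⟨⟨a1, a2⟩, a3, a4⟩, a5, a6⟩
    exact ⟨a1, a3, a5⟩
  · rintro ⟨a1, a2, a3⟩
    exact ⟨⟨⟨a1, by omega⟩, a2, by omega⟩, a3, by omega⟩

theorem sq_singleton (M : ℕ) : H200C.sq {M} = (M : ℝ) ^ 2 := by simp [H200C.sq]

/-- job QUAD -/
theorem quad : S_Quad := by
  intro h δ H0 M h1 hH0 hδ hδ1 D hD
  have hMD : M ≤ D := by omega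
  have hDr : (M : ℝ) + H0 ≤ D := by exact_mod_cast hD
  have hM0 : (0 : ℝ) ≤ M := by positivity
  have hH1 : (1024 : ℝ) ≤ H0 := by linarith
  have hpos : 0 ≤ (D : ℝ) ^ 2 - (M : ℝ) ^ 2 := by nlinarith
  have hδ0 : 0 < δ := by
    by_contra hcon
    push Not at hcon
    nlinarith
  rw [sq_singleton]
  refine ⟨hpos, ?_, ?_⟩
  · -- independence
    have hg : GoodS h (1024 * h ^ 2) (QO ((D : ℝ) - M + 2) ((D : ℝ) + 3))
        ((1 - δ) * ((D : ℝ) ^ 2 - (M : ℝ) ^ 2)) := by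
      refine Q275.WR.goodS_mono (Q195.PK.quadS (h := h) (u := 1024 * h ^ 2) (G := 32 * h)
        (w := (D : ℝ) - M + 2) (D := (D : ℝ) + 3) h1 (by linarith) (by positivity)
        (by ring_nf; linarith) (by linarith) (by linarith)) ?_
      have k1 : 4 * ((D : ℝ) + M) ≤ δ * ((D : ℝ) ^ 2 - (M : ℝ) ^ 2) := by
        have k2 : δ * H0 * ((D : ℝ) + M) ≤ δ * ((D : ℝ) - M) * ((D : ℝ) + M) := by
          refine mul_le_mul_of_nonneg_right ?_ (by linarith)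
          exact mul_le_mul_of_nonneg_left (by linarith) hδ0.le
        nlinarith
      nlinarith
    have htip := (Q211.PK.tipC M 0 0).1
    have hstep : ∀ X : Multiset ℕ, SurM X (QO ((D : ℝ) - M + 2) ((D : ℝ) + 3)) →
        SurM ({M} + X) (↑(HX 0 0 0 D) : Set (ℤ × ℤ)) := by
      intro X hX
      have h2 : SurM {M} {p : ℤ × ℤ | (D : ℤ) - M + 1 < p.1 ∧ 0 < p.2 ∧ p.1 + p.2 ≤ D + 2} := by
        refine Sur.shift htip (-((D : ℤ) - M + 1)) 0 ?_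
        rintro p ⟨a1, a2, a3⟩
        refine ⟨?_, ?_, ?_⟩ <;> simp only <;> omega
      have h3 : SurM (X + {M}) {p : ℤ × ℤ | 0 < p.1 ∧ 0 < p.2 ∧ p.1 + p.2 ≤ D + 2} := by
        refine p_cutS 1 0 ((D : ℝ) - M + 1) ?_ ?_ hX h2
        · rintro p ⟨a1, a2, a3, a4⟩
          have b3 : p.1 < (D : ℤ) - M + 2 := by exact_mod_cast a3
          have b4 : p.1 + p.2 < (D : ℤ) + 3 := by exact_mod_cast a4
          have b5 : p.1 ≤ (D : ℤ) - M + 1 := by omega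
          have b6 : (p.1 : ℝ) ≤ (D : ℝ) - M + 1 := by exact_mod_cast b5
          exact ⟨⟨a1, a2, by omega⟩, by linarith⟩
        · rintro p ⟨a1, a2, a3⟩
          have b6 : (D : ℝ) - M + 1 < (p.1 : ℝ) := by exact_mod_cast a1
          exact ⟨⟨by omega, a2, a3⟩, by linarith⟩
      rw [add_comm]
      refine Sur.shift h3 1 1 ?_
      rintro p ⟨a1, a2, a3⟩
      rw [mem_HX0]
      refine ⟨?_, ?_, ?_⟩ <;> simp only <;> omega
    exact ⟨hstep 0 (H200P.surM_zero _), fun L hL hs => hstep _ (hg L hL hs)⟩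
  · -- emptiness
    have hg : GoodE h (1024 * h ^ 2) (QC ((D : ℝ) - M) (D : ℝ))
        ((1 + δ) * ((D : ℝ) ^ 2 - (M : ℝ) ^ 2)) := by
      refine Q275.WR.goodE_mono (Q195.PK.quadE (h := h) (u := 1024 * h ^ 2) (G := 32 * h)
        (w := (D : ℝ) - M) (D := (D : ℝ)) h1 (by linarith) (by positivity)
        (by ring_nf; linarith) (by linarith) (by linarith)) ?_
      nlinarith
    have htip := (Q211.PK.tipC M 0 0).2.2.1
    intro L hL hs
    have h2 : EmpM {M} {p : ℤ × ℤ | (D : ℤ) - M < p.1 ∧ 0 ≤ p.2 ∧ p.1 + p.2 ≤ D} := by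
      refine Emp.comap htip 1 0 0 1 (-((D : ℤ) - M + 1)) 0 (by norm_num) ?_
      rintro p ⟨a1, a2, a3⟩
      refine ⟨?_, ?_, ?_⟩ <;> simp only <;> omega
    rw [add_comm]
    refine p_cutE 1 0 ((D : ℝ) - M) (Finset.finite_toSet _) ?_ (hg L hL hs) h2
    intro p hp
    rw [mem_HX0] at hp
    obtain ⟨a1, a2, a3⟩ := hp
    rcases le_or_gt p.1 ((D : ℤ) - M) with hc | hc
    · left
      have b1 : (p.1 : ℝ) ≤ (D : ℝ) - M := by exact_mod_cast hc
      have b2 : (p.1 : ℝ) + p.2 ≤ (D : ℝ) := by exact_mod_cast a3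
      exact ⟨⟨a1, a2, b1, b2⟩, by linarith⟩
    · right
      have b1 : (D : ℝ) - M < (p.1 : ℝ) := by exact_mod_cast hc
      exact ⟨⟨hc, a2, a3⟩, by linarith⟩

end Pool.Agent.Q222.CH
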