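import Pool.Agent.Q222.CH.BoxB

/-! # Project CH (helper200): job STRIP0 -/

set_option autoImplicit false

namespace Pool.Agent.Q222.CH

open Finset Polynomial Pool.Agent.TH176.Nag Pool.Agent.TH603.Sur Pool.Agent.TH2.NU Pool.Agent.TH641.UM
open Pool.Agent.Y205.FW Pool.Agent.Y205.MD Pool.Agent.H200W Pool.Agent.H200P Pool.Agent.H200C

/-- the strip as a set of integral points -/
def Zs (b σ : ℤ) (H : ℕ) : Set (ℤ × ℤ) :=
  {p | 0 ≤ p.1 ∧ 0 ≤ p.2 ∧ p.2 < H ∧ p.1 + σ * p.2 ≤ b}

theorem Zs_qd (b σ : ℤ) (H : ℕ) : qd (Zs b σ H) = St b σ H := by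
  ext p
  simp only [qd, Zs, St, Set.mem_ofPred_eq]
  constructor
  · rintro ⟨_, _, h3, h4⟩
    exact ⟨by omega, h4⟩
  · rintro ⟨h3, h4⟩
    exact ⟨by omega, by omega, by omega, h4⟩

/-- job STRIP0 -/
theorem strip0 : S_Strip0 := by
  intro hTor
  constructor
  · intro h u b σ H h1 h5 hb hbσ
    have hbr : (H : ℝ) + 1 ≤ b := by exact_mod_cast hb
    have hbσr : (H : ℝ) + 1 ≤ b - σ * H := by exact_mod_cast hbσ
    have hH0 : (0 : ℝ) ≤ H := by positivity
    -- a good set contained in the strip
    obtain ⟨Z, hZ, hgood⟩ : ∃ Z : Set (ℤ × ℤ), Z ⊆ Zs b σ H ∧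
        GoodS h u Z (2 * (b : ℝ) * H - σ * (H : ℝ) ^ 2) := by
      rcases le_or_gt 0 σ with hσ | hσ
      · have hσr : (0 : ℝ) ≤ σ := by exact_mod_cast hσ
        have hg := Q275.WR.linGoodS p_linS p_fatS (h := h) (u := u) (D0 := (b : ℝ) + 2 + σ)
          (D1 := (b : ℝ) + 2 - σ * H) (y0 := -1) (H := (H : ℝ) + 1) (fun _ => -1) h1
          (by linarith) (by linarith) (by linarith)
        refine ⟨_, ?_, Q275.WR.goodS_mono hg ?_⟩
        · rintro p ⟨a1, a2, a3, a4⟩
          have b1 : (-1 : ℤ) < p.2 := by exact_mod_cast a1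
          have b2 : p.2 < (H : ℤ) := by
            have : (p.2 : ℝ) < H := by linarith
            exact_mod_cast this
          have b3 : (-1 : ℤ) < p.1 := by exact_mod_cast a3
          have e1 : ((b : ℝ) + 2 - σ * H - (b + 2 + σ)) / ((H : ℝ) + 1) = -σ := by
            rw [div_eq_iff (by linarith)]
            ring
          rw [e1] at a4
          have b4 : p.1 < b + 1 - σ * p.2 := by
            have : (p.1 : ℝ) < b + 1 - σ * p.2 := by
              refine lt_of_lt_of_eq a4 ?_
              ring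
            exact_mod_cast this
          exact ⟨by omega, by omega, b2, by linarith⟩
        · nlinarith
      · obtain ⟨s, hs⟩ : ∃ s : ℝ, s = -(σ : ℝ) := ⟨_, rfl⟩
        have hs1 : 1 ≤ s := by
          have : σ ≤ -1 := by omega
          have h2 : (σ : ℝ) ≤ -1 := by exact_mod_cast this
          rw [hs]; linarith
        obtain ⟨ε, hε⟩ : ∃ ε : ℝ, ε = 1 / (s + 1) := ⟨_, rfl⟩
        have hε0 : 0 < ε := by rw [hε]; positivity
        have hsε : s * ε + ε = 1 := by
          rw [hε]; field_simp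
        have hε1 : ε ≤ 1 / 2 := by nlinarith
        have hσs : (σ : ℝ) = -s := by rw [hs]; ring
        have hg := Q275.WR.linGoodS p_linS p_fatS (h := h) (u := u) (D0 := (b : ℝ) + 2 + σ * ε)
          (D1 := (b : ℝ) + 2 - σ * H) (y0 := -ε) (H := (H : ℝ) + ε) (fun _ => -1) h1
          (by linarith) (by rw [hσs]; linarith) (by linarith)
        refine ⟨_, ?_, Q275.WR.goodS_mono hg ?_⟩
        · rintro p ⟨a1, a2, a3, a4⟩
          have b1 : (-1 : ℤ) < p.2 := by
            have : (-1 : ℝ) < p.2 := by linarith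
            exact_mod_cast this
          have b2 : p.2 < (H : ℤ) := by
            have : (p.2 : ℝ) < H := by linarith
            exact_mod_cast this
          have b3 : (-1 : ℤ) < p.1 := by exact_mod_cast a3
          have e1 : ((b : ℝ) + 2 - σ * H - (b + 2 + σ * ε)) / ((H : ℝ) + ε) = -σ := by
            rw [div_eq_iff (by linarith)]
            ring
          rw [e1] at a4
          have b4 : p.1 < b + 1 - σ * p.2 := by
            have : (p.1 : ℝ) < b + 1 - σ * p.2 := by
              refine lt_of_lt_of_eq a4 ?_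
              ring
            exact_mod_cast this
          exact ⟨by omega, by omega, b2, by linarith⟩
        · rw [hσs]
          have e2 : s * ε ^ 2 ≤ ε := by nlinarith
          nlinarith
    have hstep : ∀ M : Multiset ℕ, SurM M Z → SB 0 M (St b σ H) := by
      intro M hM
      have h2 : SurM M (Zs b σ H) := Q53.WR.surM_mono hM hZ
      have h3 := (hTor.2.1 M (Zs b σ H) (fun m hm => ⟨hm.1, hm.2.1⟩) h2).1
      rwa [Zs_qd] at h3
    exact ⟨hstep 0 (H200P.surM_zero _), fun L hL hs => hstep _ (hgood L hL hs)⟩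
  · intro h u b σ H h1 h5 hb hbσ
    have hbr : (H : ℝ) + 1 ≤ b := by exact_mod_cast hb
    have hbσr : (H : ℝ) + 1 ≤ b - σ * H := by exact_mod_cast hbσ
    have hH0 : (0 : ℝ) < H := by linarith
    have hg := Q275.WR.linGoodE p_linE p_fatE (h := h) (u := u) (D0 := (b : ℝ))
      (D1 := (b : ℝ) - σ * H) (y0 := 0) (H := (H : ℝ)) (fun _ => 0) h1
      (by linarith) (by linarith) (by linarith)
    intro L hL hs
    have h2 := hg L hL (by
      refine le_trans (le_of_eq ?_) hs
      ring)
    have h3 := EmpM.mono_set h2 (S := Zs b σ H) (by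
      rintro p ⟨a1, a2, a3, a4⟩
      refine ⟨by exact_mod_cast a2, ?_, by exact_mod_cast a1, ?_⟩
      · have : (p.2 : ℝ) ≤ H := by exact_mod_cast a3.le
        linarith
      · have e1 : ((b : ℝ) - σ * H - b) / (H : ℝ) = -σ := by
          rw [div_eq_iff (by linarith)]
          ring
        rw [e1]
        have b4 : (p.1 : ℝ) + σ * p.2 ≤ b := by exact_mod_cast a4
        linarith)
    have h4 := (hTor.1 _ (Zs b σ H) h3).1
    rwa [Zs_qd] at h4

end Pool.Agent.Q222.CH
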