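import Pool.Agent.Q222.CH.Strip0

/-! # Project CH (helper200): job STRIPB -/

set_option autoImplicit false

namespace Pool.Agent.Q222.CH

open Finset Polynomial Pool.Agent.TH176.Nag Pool.Agent.TH603.Sur Pool.Agent.TH2.NU Pool.Agent.TH641.UM
open Pool.Agent.Y205.FW Pool.Agent.Y205.MD Pool.Agent.H200W Pool.Agent.H200P Pool.Agent.H200C

theorem sq_zero : H200C.sq 0 = 0 := by simp [H200C.sq]

theorem sq_cons (v : ℕ) (V : Multiset ℕ) : H200C.sq (v ::ₘ V) = (v : ℝ) ^ 2 + H200C.sq V := by
  simp [H200C.sq]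

theorem sq_nonneg' (V : Multiset ℕ) : 0 ≤ H200C.sq V := by
  induction V using Multiset.induction_on with
  | empty => rw [sq_zero]
  | cons v V ih => rw [sq_cons]; positivity

theorem sq_le {V : Multiset ℕ} {H : ℕ} (h : ∀ v ∈ V, v ≤ H) : H200C.sq V ≤ (H : ℝ) * (V.sum : ℕ) := by
  induction V using Multiset.induction_on with
  | empty => rw [sq_zero]; simp
  | cons v V ih =>
    rw [sq_cons, Multiset.sum_cons]
    have h1 := ih (fun w hw => h w (Multiset.mem_cons_of_mem hw))
    have h2 : (v : ℝ) ≤ H := by exact_mod_cast h v (Multiset.mem_cons_self v V)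
    have h3 : (0 : ℝ) ≤ v := by positivity
    rw [Nat.cast_add]
    nlinarith

theorem St_finite (b σ : ℤ) (H : ℕ) : (St b σ H).Finite := by
  refine Set.Finite.subset (Finset.finite_toSet
    (range ((|b| + |σ| * H).toNat + 1) ×ˢ range H)) ?_
  intro p hp
  obtain ⟨h1, h2⟩ := hp
  rw [Finset.mem_coe, Finset.mem_product, Finset.mem_range, Finset.mem_range]
  refine ⟨?_, h1⟩
  have h3 : (p.1 : ℤ) ≤ |b| + |σ| * H := by
    have h4 : -(σ * (p.2 : ℤ)) ≤ |σ| * (p.2 : ℤ) := by
      have h5 := neg_abs_le σ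
      have h6 : (0 : ℤ) ≤ p.2 := by positivity
      nlinarith
    have h7 : |σ| * (p.2 : ℤ) ≤ |σ| * H := by
      have h8 : (p.2 : ℤ) ≤ H := by exact_mod_cast h1.le
      exact mul_le_mul_of_nonneg_left h8 (abs_nonneg σ)
    have h9 := le_abs_self b
    linarith
  omega

/-- the box is contained in the strip -/
theorem BX_sub {b σ : ℤ} {n H : ℕ} (h1 : (n : ℤ) ≤ b) (h2 : (n : ℤ) ≤ b - σ * H)
    {p : ℕ × ℕ} (hp : p ∈ BX n H) : p ∈ St b σ H := by
  obtain ⟨a1, a2⟩ := hp
  refine ⟨a2, ?_⟩
  have c1 : (p.1 : ℤ) < n := by exact_mod_cast a1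
  have c2 : (p.2 : ℤ) < H := by exact_mod_cast a2
  have c3 : (0 : ℤ) ≤ p.2 := by positivity
  rcases le_or_gt 0 σ with hσ | hσ
  · nlinarith
  · nlinarith

/-- job STRIPB -/
theorem stripB : S_StripB := by
  intro hDS hDE hBox hStrip hCut
  constructor
  · intro h u b σ H V h1 h5 hu0 hu
    induction V using Multiset.induction_on generalizing b with
    | empty =>
      intro _ hb hbσ
      rw [sq_zero]
      simp only [Multiset.sum_zero, Multiset.card_zero, zero_add, mul_one] at hb hbσ
      have hH5 : 5 ≤ H := by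
        have : (5 : ℝ) ≤ H := by linarith
        exact_mod_cast this
      have hg : GS h u (fun M => SB 0 M (St b σ H)) (2 * (b : ℝ) * H - σ * (H : ℝ) ^ 2) :=
        hStrip.1 h1 h5 (by push_cast at hb; omega) (by push_cast at hbσ; linarith)
      have e : 2 * (b : ℝ) * H - σ * (H : ℝ) ^ 2 - 0 - 2 * (Multiset.card (0 : Multiset ℕ) : ℝ) * H
          = 2 * (b : ℝ) * H - σ * (H : ℝ) ^ 2 := by simp
      rw [e]
      exact hg
    | cons v V ih =>
      intro hV hb hbσ
      have hH5 : 5 ≤ H := by
        have : (5 : ℝ) ≤ H := by linarith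
        exact_mod_cast this
      have hv : v ≤ H := hV v (Multiset.mem_cons_self v V)
      have hvr : (v : ℝ) ≤ H := by exact_mod_cast hv
      have hv0 : (0 : ℝ) ≤ v := by positivity
      have hHr : (5 : ℝ) ≤ H := by exact_mod_cast hH5
      rw [Multiset.sum_cons, Multiset.card_cons] at hb hbσ
      simp only [Nat.cast_add, Nat.cast_mul, Nat.cast_one, Nat.cast_ofNat] at hb hbσ
      rw [sq_cons, Multiset.card_cons]
      have hcast : ∀ n : ℕ, ((n : ℤ) : ℝ) = (n : ℝ) := fun n => by push_cast; rfl
      refine hDS (n0 := v + 13 * H) (n1 := v + 14 * H)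
        (fun n => 2 * (n : ℝ) * H - (v : ℝ) ^ 2)
        (fun n => 2 * ((b - n : ℤ) : ℝ) * H - σ * (H : ℝ) ^ 2 - H200C.sq V - 2 * (Multiset.card V : ℝ) * H)
        _ (fun n M => SB {v} M (BX n H)) (fun n M => SB V M (St (b - n) σ H))
        (by omega) hu0 ?_ ?_ ?_ ?_ ?_ ?_
      · push_cast
        nlinarith
      · push_cast
        nlinarith
      · intro n _ _
        push_cast
        linarith
      · intro n hn _
        exact hBox.1 h1 h5 hu0 hu hv hn
      · intro n _ hn
        refine ih (b := b - n) (fun w hw => hV w (Multiset.mem_cons_of_mem hw)) ?_ ?_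
        · simp only [Nat.cast_add, Nat.cast_mul, Nat.cast_one, Nat.cast_ofNat]
          have hn' : (n : ℤ) ≤ v + 14 * H := by exact_mod_cast hn
          linarith
        · simp only [Nat.cast_add, Nat.cast_mul, Nat.cast_one, Nat.cast_ofNat]
          have hn' : (n : ℤ) ≤ v + 14 * H := by exact_mod_cast hn
          linarith
      · intro n _ hn M1 M2 hM1 hM2
        have hn' : (n : ℤ) ≤ v + 14 * H := by exact_mod_cast hn
        have hVs : (0 : ℤ) ≤ (V.sum : ℤ) := by positivity
        have hVc : (0 : ℤ) ≤ 15 * ((Multiset.card V : ℤ) + 1) * H := by positivity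
        rw [← Multiset.singleton_add]
        refine hCut.2 n {v} V M1 M2 (St b σ H) (BX n H) (St (b - n) σ H) ?_ ?_ hM1 hM2
        · intro p hp
          exact ⟨BX_sub (by nlinarith) (by nlinarith) hp, hp.1⟩
        · intro p hp
          refine ⟨hp.1, ?_⟩
          have h2 := hp.2
          push_cast
          linarith
  · intro h u b σ H V h1 h5 hu0 hu
    induction V using Multiset.induction_on generalizing b with
    | empty =>
      intro _ hb hbσ
      rw [sq_zero]
      simp only [Multiset.sum_zero, Multiset.card_zero, zero_add, mul_one] at hb hbσ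
      have hH5 : 5 ≤ H := by
        have : (5 : ℝ) ≤ H := by linarith
        exact_mod_cast this
      have hg : GE h u (fun M => EB 0 M (St b σ H)) (2 * (b : ℝ) * H - σ * (H : ℝ) ^ 2) :=
        hStrip.2 h1 h5 (by push_cast at hb; omega) (by push_cast at hbσ; linarith)
      have e : 2 * (b : ℝ) * H - σ * (H : ℝ) ^ 2 - 0 + 2 * (Multiset.card (0 : Multiset ℕ) : ℝ) * H
          = 2 * (b : ℝ) * H - σ * (H : ℝ) ^ 2 := by simp
      rw [e]
      exact hg
    | cons v V ih =>
      intro hV hb hbσ
      have hH5 : 5 ≤ H := by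
        have : (5 : ℝ) ≤ H := by linarith
        exact_mod_cast this
      have hv : v ≤ H := hV v (Multiset.mem_cons_self v V)
      have hvr : (v : ℝ) ≤ H := by exact_mod_cast hv
      have hv0 : (0 : ℝ) ≤ v := by positivity
      have hHr : (5 : ℝ) ≤ H := by exact_mod_cast hH5
      have hsq := sq_le (fun w hw => hV w (Multiset.mem_cons_of_mem hw) : ∀ w ∈ V, w ≤ H)
      rw [Multiset.sum_cons, Multiset.card_cons] at hb hbσ
      simp only [Nat.cast_add, Nat.cast_mul, Nat.cast_one, Nat.cast_ofNat] at hb hbσ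
      rw [sq_cons, Multiset.card_cons]
      refine hDE (n0 := v + 13 * H) (n1 := v + 14 * H)
        (fun n => 2 * (n : ℝ) * H - (v : ℝ) ^ 2)
        (fun n => 2 * ((b - n : ℤ) : ℝ) * H - σ * (H : ℝ) ^ 2 - H200C.sq V + 2 * (Multiset.card V : ℝ) * H)
        _ (fun n M => EB {v} M (BX n H)) (fun n M => EB V M (St (b - n) σ H))
        (by omega) hu0 ?_ ?_ ?_ ?_ ?_ ?_ ?_
      · push_cast
        nlinarith
      · push_cast
        nlinarith
      · push_cast
        generalize V.sum = s at hb hbσ hsq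
        have hbr : (v : ℝ) + (s : ℕ) + 15 * ((Multiset.card V : ℝ) + 1 + 1) * H ≤ b := by
          exact_mod_cast hb
        have hbσr : (v : ℝ) + (s : ℕ) + 15 * ((Multiset.card V : ℝ) + 1 + 1) * H
            ≤ b - σ * H := by
          exact_mod_cast hbσ
        have hc0 : (0 : ℝ) ≤ (Multiset.card V : ℝ) := by positivity
        have hs0 : (0 : ℝ) ≤ ((s : ℕ) : ℝ) := by positivity
        have k1 : (2 * ((v : ℝ) + (s : ℕ) + 30 * H)) * H ≤ (b + (b - σ * H)) * H := by
          refine mul_le_mul_of_nonneg_right ?_ (by linarith)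
          nlinarith
        nlinarith
      · intro n _ _
        push_cast
        linarith
      · intro n hn _
        exact hBox.2 h1 h5 hu0 hu hv hn
      · intro n _ hn
        refine ih (b := b - n) (fun w hw => hV w (Multiset.mem_cons_of_mem hw)) ?_ ?_
        · simp only [Nat.cast_add, Nat.cast_mul, Nat.cast_one, Nat.cast_ofNat]
          have hn' : (n : ℤ) ≤ v + 14 * H := by exact_mod_cast hn
          linarith
        · simp only [Nat.cast_add, Nat.cast_mul, Nat.cast_one, Nat.cast_ofNat]
          have hn' : (n : ℤ) ≤ v + 14 * H := by exact_mod_cast hn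
          linarith
      · intro n _ hn M1 M2 hM1 hM2
        rw [← Multiset.singleton_add]
        refine hCut.1 n {v} V M1 M2 (St b σ H) (BX n H) (St (b - n) σ H) (St_finite b σ H)
          ?_ ?_ hM1 hM2
        · intro p hp hpn
          exact ⟨hpn, hp.1⟩
        · intro p hp hpn
          refine ⟨hp.1, ?_⟩
          have h2 := hp.2
          show ((p.1 - n : ℕ) : ℤ) + σ * (p.2 : ℤ) ≤ b - n
          rw [Nat.cast_sub hpn]
          linarith

end Pool.Agent.Q222.CH
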