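import Pool.Agent.Q222.CH.Quad

/-! # Project CH (helper200): job WINC -/

set_option autoImplicit false

namespace Pool.Agent.Q222.CH

open Finset Polynomial Pool.Agent.TH176.Nag Pool.Agent.TH603.Sur Pool.Agent.TH2.NU Pool.Agent.TH641.UM
open Pool.Agent.Y205.FW Pool.Agent.Y205.MD Pool.Agent.H200W Pool.Agent.H200P Pool.Agent.H200C

theorem two_condM (M : Multiset ℕ) : 2 * (TH2.NU.condM M : ℝ) = H200C.sq M + (M.sum : ℕ) := by
  induction M using Multiset.induction_on with
  | empty => simp [TH2.NU.condM, H200C.sq]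
  | cons a M ih =>
    have h1 : TH2.NU.condM (a ::ₘ M) = (a + 1).choose 2 + TH2.NU.condM M := by
      simp [TH2.NU.condM]
    rw [h1, sq_cons, Multiset.sum_cons, Nat.cast_add, Nat.cast_add, Nat.cast_choose_two, mul_add, ih]
    push_cast
    ring

theorem up_zero_sum (W : Multiset ℕ) : (up W 0).sum = W.sum := by
  unfold up
  induction W using Multiset.induction_on with
  | empty => simp
  | cons a W ih =>
    rw [Multiset.sum_cons]
    by_cases ha : 0 < a
    · rw [Multiset.filter_cons_of_pos _ ha, Multiset.map_cons, Multiset.sum_cons, ih]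
      omega
    · rw [Multiset.filter_cons_of_neg _ ha, ih]
      omega

theorem up_zero_sq (W : Multiset ℕ) : H200C.sq (up W 0) = H200C.sq W := by
  unfold up
  induction W using Multiset.induction_on with
  | empty => simp
  | cons a W ih =>
    rw [sq_cons]
    by_cases ha : 0 < a
    · rw [Multiset.filter_cons_of_pos _ ha, Multiset.map_cons, sq_cons, ih]
      simp
    · rw [Multiset.filter_cons_of_neg _ ha, ih]
      have : a = 0 := by omega
      subst this
      simp

theorem qd_HX (f : ℕ) : qd (↑(HX 0 0 0 f) : Set (ℤ × ℤ)) = Tr f := by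
  ext p
  show ((p.1 : ℤ), (p.2 : ℤ)) ∈ (↑(HX 0 0 0 f) : Set (ℤ × ℤ)) ↔ p.1 + p.2 ≤ f
  rw [mem_HX0]
  constructor
  · rintro ⟨_, _, h⟩
    have h' : (p.1 : ℤ) + (p.2 : ℤ) ≤ f := h
    omega
  · intro h
    refine ⟨by positivity, by positivity, ?_⟩
    show (p.1 : ℤ) + (p.2 : ℤ) ≤ f
    omega

/-- the numerical core: a lower bound of the volume -/
theorem vol_bound (hAlg : Alg) {H0 f M m : ℕ} {W : Multiset ℕ} {E : ℕ → ℕ}
    (hC : Chain H0 f (M + H0) W E m) :
    (2 : ℝ) ^ 8 * E 0 * H0 * f ≤ (f : ℝ) ^ 2 - (M : ℝ) ^ 2 - H200C.sq W := by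
  obtain ⟨hanti, hE1, hWm, hdeg, hmain⟩ := hC
  obtain ⟨c, hc⟩ : ∃ c : ℝ, c = (2 : ℝ) ^ 8 * E 0 * H0 := ⟨_, rfl⟩
  have hc0 : 0 ≤ c := by rw [hc]; positivity
  -- the degrees that are left
  obtain ⟨dE, hdE⟩ : ∃ dE : ℕ → ℝ, dE = fun k => (f : ℝ) - ∑ j ∈ range k, (E j : ℝ) := ⟨_, rfl⟩
  obtain ⟨S, hS⟩ : ∃ S : ℕ → ℝ, S = fun k => (((up W k).sum : ℕ) : ℝ) := ⟨_, rfl⟩
  obtain ⟨N, hN⟩ : ∃ N : ℕ → ℝ, N = fun k => (((W.filter fun w => k < w).card : ℕ) : ℝ) :=
    ⟨_, rfl⟩
  have hS0 : ∀ k, 0 ≤ S k := fun k => by rw [hS]; positivity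
  have hdEs : ∀ k, dE (k + 1) = dE k - E k := by
    intro k
    rw [hdE]
    simp only [Finset.sum_range_succ]
    ring
  have hSs : ∀ k, S (k + 1) = S k - N k := by
    intro k
    have h1 := hAlg.lm_succ 0 0 W k
    unfold lm at h1
    have h2 : (((up W (k + 1)).sum : ℕ) : ℤ) = ((up W k).sum : ℕ)
        - (((W.filter fun w => k < w).card : ℕ) : ℤ) := by linarith
    rw [hS, hN]
    have h3 : ((((up W (k + 1)).sum : ℕ) : ℤ) : ℝ) = ((((up W k).sum : ℕ)
        - (((W.filter fun w => k < w).card : ℕ) : ℤ) : ℤ) : ℝ) := by rw [h2]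
    rw [Int.cast_sub, Int.cast_natCast, Int.cast_natCast, Int.cast_natCast] at h3
    exact h3
  have hNanti : ∀ k, N (k + 1) ≤ N k := by
    intro k
    rw [hN]
    have h1 : (W.filter fun w => k + 1 < w).card ≤ (W.filter fun w => k < w).card :=
      Multiset.card_le_card (Multiset.monotone_filter_right W (fun w hw => by omega))
    simp only
    exact_mod_cast h1
  have hEpos : ∀ k, (1 : ℝ) ≤ E k := fun k => by exact_mod_cast hE1 k
  have hEanti : ∀ k, (E (k + 1) : ℝ) ≤ E k := fun k => by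
    exact_mod_cast hanti (Nat.le_succ k)
  have hdEm : (M : ℝ) + H0 + c ≤ dE m := by
    have h1 : ((M + H0 + ∑ j ∈ range m, E j + 2 ^ 8 * E 0 * H0 : ℕ) : ℝ) ≤ (f : ℝ) := by
      exact_mod_cast hdeg
    push_cast at h1
    rw [hdE, hc]
    simp only
    linarith
  have hdEanti : ∀ j, ∀ k ≤ m, m - k = j → dE m ≤ dE k := by
    intro j
    induction j with
    | zero =>
      intro k hk hj
      have : k = m := by omega
      rw [this]
    | succ j ih =>
      intro k hk hj
      have h1 := ih (k + 1) (by omega) (by omega)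
      have h2 := hdEs k
      have h3 := hEpos k
      linarith
  have hdEc : ∀ k ≤ m, c ≤ dE k := by
    intro k hk
    have h1 := hdEanti _ k hk rfl
    have h2 : (0 : ℝ) ≤ M := by positivity
    have h3 : (0 : ℝ) ≤ H0 := by positivity
    linarith
  have hSm : S m = 0 := by
    rw [hS]
    simp only
    rw [hAlg.up_zero W m hWm]
    simp
  -- the intersection numbers at the starts
  have hstart : ∀ k < m, (k = 0 ∨ E k < E (k - 1)) → c * E k ≤ E k * dE k - S k := by
    intro k hk hst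
    have h1 := hmain k hk hst
    have h2 : (((up W k).sum + E k * ∑ j ∈ range k, E j +
        2 ^ 13 * H0 * E k * (E 0 + E k * (W.filter fun w => k < w ∧ w ≤ k + 256 * H0).card) : ℕ) : ℝ)
        ≤ ((E k * f : ℕ) : ℝ) := by exact_mod_cast h1
    simp only [Nat.cast_add, Nat.cast_mul, Nat.cast_pow, Nat.cast_ofNat, Nat.cast_sum] at h2
    rw [hdE, hS, hc]
    simp only
    have h3 : (0 : ℝ) ≤ (2 : ℝ) ^ 13 * H0 * E k * (E k *
        ((W.filter fun w => k < w ∧ w ≤ k + 256 * H0).card : ℕ)) := by positivity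
    have h4 : (0 : ℝ) ≤ (H0 : ℝ) * E k * E 0 := by positivity
    nlinarith
  -- forwards
  have hF : ∀ j, ∀ k < m, m - 1 - k = j → N k ≤ (E k : ℝ) ^ 2 → c * E k ≤ E k * dE k - S k := by
    intro j
    induction j with
    | zero =>
      intro k hk hj hNk
      have hkm : k + 1 = m := by omega
      have h1 := hdEs k
      have h2 := hSs k
      rw [hkm] at h1 h2
      rw [hSm] at h2
      have h3 := hdEc m le_rfl
      have h4 := hEpos k
      nlinarith
    | succ j ih =>
      intro k hk hj hNk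
      have hkm : k + 1 < m := by omega
      have h1 := hdEs k
      have h2 := hSs k
      have h4 := hEpos k
      rcases (hanti (Nat.le_succ k)).lt_or_eq with hlt | heq
      · have h5 := hstart (k + 1) hkm (Or.inr (by simpa using hlt))
        have h6 := hdEc (k + 1) hkm.le
        have h7 := hEanti k
        have h8 : ((E k : ℝ) - E (k + 1)) * c ≤ ((E k : ℝ) - E (k + 1)) * dE (k + 1) :=
          mul_le_mul_of_nonneg_left h6 (by linarith)
        nlinarith
      · have heq' : (E (k + 1) : ℝ) = E k := by exact_mod_cast heq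
        have h5 := ih (k + 1) hkm (by omega) (by
          rw [heq']
          exact (hNanti k).trans hNk)
        rw [heq'] at h5
        nlinarith
  -- all intersection numbers
  have hall : ∀ k, k < m → c * E k ≤ E k * dE k - S k := by
    intro k
    induction k with
    | zero =>
      intro hk
      exact hstart 0 hk (Or.inl rfl)
    | succ k ih =>
      intro hk
      rcases (hanti (Nat.le_succ k)).lt_or_eq with hlt | heq
      · exact hstart (k + 1) hk (Or.inr (by simpa using hlt))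
      · have heq' : (E (k + 1) : ℝ) = E k := by exact_mod_cast heq
        rcases le_or_gt (N k) ((E k : ℝ) ^ 2) with hle | hgt
        · refine hF _ (k + 1) hk rfl ?_
          rw [heq']
          exact (hNanti k).trans hle
        · have h1 := hdEs k
          have h2 := hSs k
          have h5 := ih (by omega)
          rw [heq', h1, h2]
          nlinarith
  have hsec : ∀ k, k < m → 0 ≤ E k * dE (k + 1) - S (k + 1) := by
    intro k hk
    have h4 := hEpos k
    have h6 := hdEc (k + 1) hk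
    rcases Nat.lt_or_ge (k + 1) m with hlt | hge
    · have h5 := hall (k + 1) hlt
      have h7 := hEanti k
      have h8 := hEpos (k + 1)
      have h9 : 0 ≤ ((E k : ℝ) - E (k + 1)) * dE (k + 1) :=
        mul_nonneg (by linarith) (by linarith)
      have h10 : 0 ≤ c * E (k + 1) := by positivity
      nlinarith
    · have hkm : k + 1 = m := by omega
      rw [hkm] at h6 ⊢
      rw [hSm]
      nlinarith
  -- summation
  have hsum : ∀ k, k ≤ m → c * ∑ j ∈ range k, (E j : ℝ) ≤
      ((f : ℝ) ^ 2 - H200C.sq (up W 0)) - ((dE k) ^ 2 - H200C.sq (up W k)) := by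
    intro k
    induction k with
    | zero =>
      intro _
      rw [hdE]
      simp
    | succ k ih =>
      intro hk
      have h1 := ih (by omega)
      have h2 := hall k (by omega)
      have h3 := hsec k (by omega)
      have h4 := hAlg.sq_succ W k
      have h5 : H200C.sq (up W k) - H200C.sq (up W (k + 1)) = S k + S (k + 1) := by
        rw [hS]; exact h4
      have h6 := hdEs k
      rw [Finset.sum_range_succ, mul_add]
      have h7 : (dE k) ^ 2 - (dE (k + 1)) ^ 2 = E k * dE k + E k * dE (k + 1) := by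
        rw [h6]; ring
      nlinarith
  have h1 := hsum m le_rfl
  have h2 : H200C.sq (up W m) = 0 := by
    rw [hAlg.up_zero W m hWm, sq_zero]
  rw [up_zero_sq, h2] at h1
  have h3 : dE m = (f : ℝ) - ∑ j ∈ range m, (E j : ℝ) := by rw [hdE]
  have hM0 : (0 : ℝ) ≤ M := by positivity
  have hH00 : (0 : ℝ) ≤ H0 := by positivity
  have h4 : c * dE m ≤ (dE m) ^ 2 - (M : ℝ) ^ 2 := by
    have h5 : c * dE m ≤ (dE m - M) * (dE m + M) := by
      have h6 : c ≤ dE m - M := by linarith
      have h7 : dE m ≤ dE m + M := by linarith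
      have h8 : 0 ≤ dE m := by linarith
      exact mul_le_mul h6 h7 h8 (by linarith)
    nlinarith
  rw [← hc]
  have h5 : c * f = c * ∑ j ∈ range m, (E j : ℝ) + c * dE m := by rw [h3]; ring
  rw [h5]
  linarith

/-- job WINC -/
theorem winC : S_WinC := by
  intro hMulti hQuad hTor hAlg hMs t d M m W E ht hC f hf
  have htr : (1 : ℝ) ≤ t := by exact_mod_cast ht
  -- the chain condition for `f`
  have hCf : Chain (2 ^ 18 * t) f (M + 2 ^ 18 * t) W E m := by
    obtain ⟨c1, c2, c3, c4, c5⟩ := hC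
    refine ⟨c1, c2, c3, c4.trans hf, fun k hk hk2 => (c5 k hk hk2).trans ?_⟩
    exact Nat.mul_le_mul_left _ hf
  have hvol := vol_bound hAlg hCf
  obtain ⟨c1, c2, c3, c4, c5⟩ := hCf
  obtain ⟨δ, hδ⟩ : ∃ δ : ℝ, δ = 1 / (2 ^ 16 * t) := ⟨_, rfl⟩
  have hδ0 : 0 < δ := by rw [hδ]; positivity
  have hδt : δ * (2 ^ 16 * t) = 1 := by rw [hδ]; field_simp
  have hδ1 : δ ≤ 1 := by nlinarith
  have hH0r : (((2 ^ 18 * t : ℕ)) : ℝ) = 2 ^ 18 * t := by push_cast; ring
  have hh1 : (1 : ℝ) ≤ 256 * t := by linarith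
  have hhH : 1024 * (256 * (t : ℝ)) ≤ ((2 ^ 18 * t : ℕ) : ℝ) := by rw [hH0r]; norm_num; linarith
  have hδH : 4 ≤ δ * ((2 ^ 18 * t : ℕ) : ℝ) := by rw [hH0r]; nlinarith
  have hbase : BaseK (256 * t) δ {M} (M + 2 ^ 18 * t) := hQuad hh1 hhH hδH hδ1
  have hmul := hMulti (h := 256 * (t : ℝ)) (δ := δ) (H0 := 2 ^ 18 * t) (d := f)
    (D1 := M + 2 ^ 18 * t) (m := m) (K := {M}) (W := W) (E := E) hh1 hhH hδH hδ1 hbase
    ⟨c1, c2, c3, c4, c5⟩
  -- the numbers
  obtain ⟨e, he⟩ : ∃ e : ℝ, e = (E 0 : ℝ) := ⟨_, rfl⟩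
  have he1 : 1 ≤ e := by rw [he]; exact_mod_cast c2 0
  obtain ⟨F, hF⟩ : ∃ F : ℝ, F = (f : ℝ) ^ 2 - (M : ℝ) ^ 2 - H200C.sq W := ⟨_, rfl⟩
  obtain ⟨s, hs⟩ : ∃ s : ℝ, s = ((W.sum : ℕ) : ℝ) := ⟨_, rfl⟩
  have hs0 : 0 ≤ s := by rw [hs]; positivity
  have hM0 : (0 : ℝ) ≤ M := by positivity
  have hMf : (M : ℝ) ≤ f := by
    have : M ≤ f := by omega
    exact_mod_cast this
  have hf1 : (1 : ℝ) ≤ f := by
    have h0 : 1 ≤ f := by omega
    exact_mod_cast h0
  have hsf : s ≤ e * f := by
    rcases Nat.eq_zero_or_pos m with h0 | h0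
    · have h1 : W.sum = 0 := by
        rw [Multiset.sum_eq_zero_iff]
        intro w hw
        have := c3 w hw
        omega
      rw [hs, h1]
      simp only [Nat.cast_zero]
      positivity
    · have h1 := c5 0 h0 (Or.inl rfl)
      rw [up_zero_sum] at h1
      have h2 : W.sum ≤ E 0 * f := by
        refine le_trans ?_ h1
        rw [add_assoc]
        exact Nat.le_add_right _ _
      rw [hs, he]
      exact_mod_cast h2
  have hX : 2 * ((HX 0 0 0 f).card : ℝ) - 2 * (TH2.NU.condM ({M} + W) : ℝ)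
      = F + 3 * f + 2 - M - s := by
    have h1 := p_card (M1 := 0) (M2 := 0) (M3 := 0) (d := f) le_rfl le_rfl (by omega)
    have h2 : 2 * ((HX 0 0 0 f).card : ℝ) = ((f : ℝ) + 1) * (f + 2) := by
      have h3 : 2 * (HX 0 0 0 f).card = (f + 1) * (f + 2) := by omega
      exact_mod_cast h3
    rw [h2, two_condM, Multiset.singleton_add, sq_cons, Multiset.sum_cons, Nat.cast_add, hF, hs]
    ring
  have hFl : 2 ^ 26 * e * t * f ≤ F := by
    rw [hF, he]
    refine le_trans (le_of_eq ?_) hvol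
    rw [hH0r]
    ring
  have hetf : 0 ≤ e * t * f := by positivity
  have hF0 : 0 ≤ F := by nlinarith
  have hef : 1 ≤ e * f := by nlinarith
  have heft : e * f ≤ e * t * f := by
    have : e * f * 1 ≤ e * f * t := mul_le_mul_of_nonneg_left htr (by linarith)
    linarith
  obtain ⟨Λ, hΛ⟩ : ∃ Λ : ℝ, Λ = δ * F + (2 * e + 3) * f + 2 := ⟨_, rfl⟩
  have hfe : (f : ℝ) ≤ e * f := by nlinarith
  refine ⟨Λ, ?_, ?_, ?_, ?_⟩
  · rw [hΛ]; positivity
  · rw [hX, le_div_iff₀ (by positivity), hΛ]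
    have k1 : δ * F * (64 * (256 * t)) = F / 4 := by
      have : δ * F * (64 * (256 * t)) = (δ * (2 ^ 16 * t)) * F / 4 := by ring
      rw [this, hδt, one_mul]
    have k2 : ((2 * e + 3) * f + 2 + 2 * ((f : ℝ) + 2)) ≤ 13 * (e * f) := by nlinarith
    have k3 : ((2 * e + 3) * f + 2 + 2 * ((f : ℝ) + 2)) * (64 * (256 * t))
        ≤ 13 * (e * f) * (64 * (256 * t)) :=
      mul_le_mul_of_nonneg_right k2 (by positivity)
    have k4 : (δ * F + (2 * e + 3) * f + 2 + 2 * ((f : ℝ) + 2)) * (64 * (256 * t))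
        = F / 4 + ((2 * e + 3) * f + 2 + 2 * ((f : ℝ) + 2)) * (64 * (256 * t)) := by
      rw [← k1]; ring
    rw [k4]
    have k5 : 13 * (e * f) * (64 * (256 * t)) = 13 * 2 ^ 14 * (e * t * f) := by ring
    nlinarith
  · -- independence
    obtain ⟨hq0, hqL⟩ := hmul.1
    have htr' : ∀ X : Multiset ℕ, SC (E 0) W ({M} + X) (Tr f) →
        SurM ({M} + W + X) (↑(HX 0 0 0 f) : Set (ℤ × ℤ)) := by
      intro X hX'
      rw [← qd_HX f] at hX'
      have h1 := hTor.2.2.2 (E 0) W ({M} + X) (↑(HX 0 0 0 f) : Set (ℤ × ℤ)) (by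
        intro p hp
        rw [mem_HX0] at hp
        exact ⟨hp.1, hp.2.1⟩) hX'
      rw [← add_assoc, add_comm W] at h1
      exact h1
    refine ⟨?_, ?_⟩
    · have h1 := htr' 0 hq0
      rwa [add_zero] at h1
    · intro L hL hsum
      refine htr' _ (hqL L hL (hsum.trans ?_))
      rw [hX, sq_singleton, ← he, hΛ]
      have k1 : (f : ℝ) ^ 2 - 2 * (e - 1) * f ≤ ((f : ℝ) - e + 1) ^ 2 := by nlinarith
      have k2 : (1 - δ) * (F - 2 * (e - 1) * f)
          ≤ (1 - δ) * (((f : ℝ) - e + 1) ^ 2 - (M : ℝ) ^ 2 - H200C.sq W) := by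
        refine mul_le_mul_of_nonneg_left ?_ (by linarith)
        rw [hF]
        linarith
      refine le_trans ?_ k2
      have k3 : 0 ≤ δ * (2 * (e - 1) * f) := by
        have : 0 ≤ e - 1 := by linarith
        positivity
      nlinarith
  · -- emptiness
    intro L hL hsum
    rw [hX, hΛ] at hsum
    have h1 := hmul.2 L hL (by
      refine le_trans ?_ hsum
      rw [sq_singleton]
      have : (f : ℝ) ^ 2 - (M : ℝ) ^ 2 - H200C.sq W = F := by rw [hF]
      rw [this]
      nlinarith)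
    have h1' : EC (E 0) W ({M} + (L.map Prod.fst).sum) (Tr f) := h1
    rw [← qd_HX f] at h1'
    have h2 := hTor.2.2.1 (E 0) W ({M} + (L.map Prod.fst).sum) (↑(HX 0 0 0 f) : Set (ℤ × ℤ))
      (Finset.finite_toSet _) (by
        intro p hp
        rw [mem_HX0] at hp
        exact ⟨hp.1, hp.2.1⟩) h1'
    rw [← add_assoc, add_comm W] at h2
    exact h2

end Pool.Agent.Q222.CH
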